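import Pool.Agent.Helper13.GP.Cyc2

/-!
# Chapter COMB: triangulated polygons
-/

namespace Pool.Agent.Helper13.GP

open Relation Classical Pool.Agent.Helper18.GP

variable {N : ℕ}

theorem arcTri : stArcTri := by
  intro N V G h a ha b hb hab
  have hne : b ≠ a := hab.ne.symm
  have hsub := Arc_sub V a b
  refine ⟨fun x hx y hy c hc d hd => h.nc x (hsub hx) y (hsub hy) c (hsub hc) d (hsub hd), ?_⟩
  intro x hx y hy hxy hnadj
  obtain ⟨c, hc, d, hd, hcd, hcr⟩ := h.mx x (hsub hx) y (hsub hy) hxy hnadj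
  rcases Arc_or_of_not_Crs hne hc hd (h.nc a ha b hb c hc d hd hab hcd) with h1 | h1
  · exact ⟨c, h1.1, d, h1.2, hcd, hcr⟩
  · exact absurd hcr (not_Crs_Arc hne hx hy h1.1 h1.2)

theorem side : stSide := by
  intro N V G h a ha b hb hab s hs hcl
  have hne : b ≠ a := hab.ne.symm
  by_contra hcon
  push Not at hcon
  obtain ⟨h1, h2⟩ := hcon
  rw [Finset.not_subset] at h1 h2
  obtain ⟨x, hx, hx1⟩ := h1
  obtain ⟨y, hy, hy1⟩ := h2
  have hxy : x ≠ y := by
    rintro rfl
    rcases mem_Arc_or hne (hs hx) with h3 | h3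
    · exact hx1 h3
    · exact hy1 h3
  rcases Arc_or_of_not_Crs hne (hs hx) (hs hy)
    (h.nc a ha b hb x (hs hx) y (hs hy) hab (hcl x hx y hy hxy)) with h3 | h3
  · exact hx1 h3.1
  · exact hy1 h3.2

theorem bdAdj : stBdAdj := by
  intro N V G h a b hbd
  by_contra hn
  obtain ⟨c, hc, d, hd, _, hcr⟩ := h.mx a hbd.1 b hbd.2.1 hbd.2.2.1 hn
  exact Bd_not_Crs hbd hc hd hcr

theorem apex : stApex := by
  intro N V G h a ha b hb hab hex
  -- the last neighbour of `a` before `b`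
  have hne : (V.filter fun c => Ccw a c b ∧ G.Adj a c).Nonempty := by
    obtain ⟨v, hv, hvc⟩ := hex
    obtain ⟨c, hc, hca, hmin⟩ := exists_next (V := V) (a := a) ⟨v, hv, (Ccw_ne12 hvc).symm⟩
    refine ⟨c, Finset.mem_filter.2 ⟨hc, ⟨cyc_pos.2 hca, ?_⟩, bdAdj N V G h a c
      (Bd_next ha hc hca hmin)⟩⟩
    have h1 := hmin v hv (Ccw_ne12 hvc).symm
    have h2 := hvc.2
    omega
  obtain ⟨c, hc, hmax⟩ := Finset.exists_max_image _ (fun c => cyc a c) hne
  rw [Finset.mem_filter] at hc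
  obtain ⟨hcV, hccw, hac⟩ := hc
  have hcb : G.Adj c b := by
    by_contra hn
    obtain ⟨d, hd, e, he, hde, hcr⟩ := h.mx c hcV b hb (Ccw_ne23 hccw) hn
    -- wlog `d` strictly between `c` and `b`
    have key : ∀ d ∈ V, ∀ e ∈ V, G.Adj d e → Ccw c d b → Ccw c b e → False := by
      intro d hd e he hde h1 h2
      have h3 := h.nc a ha b hb d hd e he hab hde
      have h4 := h.nc a ha c hcV d hd e he hac hde
      have hc1 := hccw.1
      have hc2 := hccw.2
      have hD : cyc a c < cyc a d ∧ cyc a d < cyc a b := by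
        rw [Ccw_base a] at h1
        omega
      have hE : cyc a b < cyc a e ∨ cyc a e < cyc a c := by
        rw [Ccw_base a] at h2
        omega
      have hea : e = a := by
        by_contra hea
        have h5 := cyc_pos.2 hea
        unfold Crs Ccw at h3 h4
        clear h1 h2 hmax
        omega
      subst hea
      have h5 := hmax d (Finset.mem_filter.2 ⟨hd, ⟨by omega, hD.2⟩, hde.symm⟩)
      omega
    rcases hcr with h1 | h1
    · exact key d hd e he hde h1.1 h1.2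
    · exact key e he d hd hde.symm h1.1 h1.2
  refine ⟨c, ⟨hcV, hccw, hac, hcb⟩, ?_⟩
  rintro c' ⟨hc'V, hccw', hac', hcb'⟩
  by_contra hne'
  have hval : cyc a c' ≠ cyc a c := fun hh => hne' (cyc_inj hh)
  rcases Nat.lt_or_gt_of_ne hval with hlt | hlt
  · exact h.nc a ha c hcV c' hc'V b hb hac hcb' (Or.inl ⟨⟨hccw'.1, hlt⟩, hccw⟩)
  · exact h.nc a ha c' hc'V c hcV b hb hac' hcb (Or.inl ⟨⟨hccw.1, hlt⟩, hccw'⟩)

theorem ear : stEar := by
  intro N V G h hcard
  -- adjacent pairs with a vertex in between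
  have hne : ((V ×ˢ V).filter fun e => G.Adj e.1 e.2 ∧ ∃ v ∈ V, Ccw e.1 v e.2).Nonempty := by
    obtain ⟨a, ha⟩ : V.Nonempty := Finset.card_pos.1 (by omega)
    have hex : ∃ v ∈ V, v ≠ a := by
      have : (V.erase a).Nonempty := Finset.card_pos.1 (by rw [Finset.card_erase_of_mem ha]; omega)
      obtain ⟨v, hv⟩ := this
      rw [Finset.mem_erase] at hv
      exact ⟨v, hv.2, hv.1⟩
    obtain ⟨b, hb, hba, hmax⟩ := exists_prev hex
    have : ((V.erase a).erase b).Nonempty := Finset.card_pos.1 (by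
      rw [Finset.card_erase_of_mem (Finset.mem_erase.2 ⟨hba, hb⟩), Finset.card_erase_of_mem ha]
      omega)
    obtain ⟨v, hv⟩ := this
    rw [Finset.mem_erase, Finset.mem_erase] at hv
    refine ⟨(a, b), Finset.mem_filter.2 ⟨Finset.mem_product.2 ⟨ha, hb⟩,
      bdAdj N V G h a b (Bd_prev ha hb hba hmax), v, hv.2.2, cyc_pos.2 hv.2.1, ?_⟩⟩
    exact lt_of_le_of_ne (hmax v hv.2.2) (fun hh => hv.1 (cyc_inj hh))
  obtain ⟨⟨x, z⟩, hxz, hmin⟩ := Finset.exists_min_image _ (fun e => cyc e.1 e.2) hne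
  rw [Finset.mem_filter, Finset.mem_product] at hxz
  obtain ⟨⟨hx, hz⟩, hadj, hex⟩ := hxz
  simp only at hx hz hadj hex
  obtain ⟨v, ⟨hv, hccw, hxv, hvz⟩, -⟩ := apex N V G h x hx z hz hadj hex
  have hB1 : ∀ u ∈ V, ¬ Ccw x u v := by
    intro u hu hc
    have := hmin (x, v) (Finset.mem_filter.2 ⟨Finset.mem_product.2 ⟨hx, hv⟩, hxv, u, hu, hc⟩)
    simp only at this
    have := hccw.2
    omega
  have hB2 : ∀ u ∈ V, ¬ Ccw v u z := by
    intro u hu hc
    have h1 := hmin (v, z) (Finset.mem_filter.2 ⟨Finset.mem_product.2 ⟨hv, hz⟩, hvz, u, hu, hc⟩)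
    simp only at h1
    have h2 := hccw.2
    have h3 := cyc_change_le h2.le
    have := hccw.1
    omega
  have hzx : z ≠ x := hadj.ne.symm
  have hArc : Arc V z x = V.erase v := by
    ext u
    rw [mem_Arc' hzx, Finset.mem_erase]
    constructor
    · rintro ⟨hu, h1⟩
      refine ⟨?_, hu⟩
      rintro rfl
      have := hccw.2
      rcases h1 with h1 | h1
      · exact Ccw_ne12 hccw h1.symm
      · omega
    · rintro ⟨huv, hu⟩
      refine ⟨hu, ?_⟩
      by_contra hcon
      push Not at hcon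
      have h1 := hB1 u hu
      have h2 := hB2 u hu
      have h3 := cyc_pos.2 hcon.1
      have h4 : cyc x u ≠ cyc x v := fun hh => huv (cyc_inj hh)
      rw [Ccw_base x] at h1 h2
      have := cyc_self x
      omega
  refine ⟨v, hv, x, hx, z, hz, hadj.ne, ⟨hx, hv, hxv.ne, Or.inl hB1⟩,
    ⟨hv, hz, hvz.ne, Or.inl hB2⟩, hccw, hadj, ?_, ?_⟩
  · rw [← hArc]
    exact arcTri N V G h z hz x hx hadj.symm
  · intro y hy hvy
    by_contra hcon
    push Not at hcon
    have h1 := h.nc x hx z hz v hv y hy hadj hvy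
    have h2 := hB1 y hy
    have h3 := hB2 y hy
    have h4 : y.val ≠ x.val := fun hh => hcon.1 (Fin.ext hh)
    have h5 : y.val ≠ z.val := fun hh => hcon.2 (Fin.ext hh)
    have h6 : v.val ≠ y.val := fun hh => hvy.ne (Fin.ext hh)
    rw [Crs_iff] at h1
    rw [Ccw_iff] at h2 h3 hccw
    omega

/-- one more vertex: an ear contributes four ordered pairs -/
theorem eCount_ear {V : Finset (Fin N)} {G : SimpleGraph (Fin N)} {v x z : Fin N} (hv : v ∈ V)
    (hx : x ∈ V) (hz : z ∈ V) (hxz : x ≠ z) (h1 : G.Adj v x) (h2 : G.Adj v z)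
    (h : ∀ y ∈ V, G.Adj v y → y = x ∨ y = z) : eCount V G = eCount (V.erase v) G + 4 := by
  unfold eCount
  have hvx := h1.ne
  have hvz := h2.ne
  have hset : ((V ×ˢ V).filter fun e => G.Adj e.1 e.2) =
      (((V.erase v) ×ˢ (V.erase v)).filter fun e => G.Adj e.1 e.2) ∪
        {(v, x), (v, z), (x, v), (z, v)} := by
    ext ⟨p, q⟩
    simp only [Finset.mem_filter, Finset.mem_product, Finset.mem_union, Finset.mem_erase,
      Finset.mem_insert, Finset.mem_singleton, Prod.mk.injEq]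
    constructor
    · rintro ⟨⟨hp, hq⟩, hpq⟩
      by_cases hpv : p = v
      · subst hpv
        rcases h q hq hpq with rfl | rfl
        · right; left; exact ⟨rfl, rfl⟩
        · right; right; left; exact ⟨rfl, rfl⟩
      · by_cases hqv : q = v
        · subst hqv
          rcases h p hp hpq.symm with rfl | rfl
          · right; right; right; left; exact ⟨rfl, rfl⟩
          · right; right; right; right; exact ⟨rfl, rfl⟩
        · left; exact ⟨⟨⟨hpv, hp⟩, ⟨hqv, hq⟩⟩, hpq⟩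
    · rintro (⟨⟨⟨-, hp⟩, ⟨-, hq⟩⟩, hpq⟩ | ⟨rfl, rfl⟩ | ⟨rfl, rfl⟩ | ⟨rfl, rfl⟩ | ⟨rfl, rfl⟩)
      · exact ⟨⟨hp, hq⟩, hpq⟩
      · exact ⟨⟨hv, hx⟩, h1⟩
      · exact ⟨⟨hv, hz⟩, h2⟩
      · exact ⟨⟨hx, hv⟩, h1.symm⟩
      · exact ⟨⟨hz, hv⟩, h2.symm⟩
  rw [hset, Finset.card_union_of_disjoint]
  · congr 1
    rw [Finset.card_insert_of_notMem, Finset.card_insert_of_notMem, Finset.card_insert_of_notMem,
      Finset.card_singleton]
    · simp only [Finset.mem_singleton, Prod.mk.injEq, not_and]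
      intro hh; exact absurd hh hxz
    · simp only [Finset.mem_singleton, Finset.mem_insert, Prod.mk.injEq, not_or, not_and]
      exact ⟨fun hh => absurd hh hvx, fun hh => absurd hh hvz⟩
    · simp only [Finset.mem_singleton, Finset.mem_insert, Prod.mk.injEq, not_or, not_and]
      exact ⟨fun _ hh => absurd hh hxz, fun hh => absurd hh hvx, fun hh => absurd hh hvz⟩
  · rw [Finset.disjoint_left]
    rintro ⟨p, q⟩ hpq
    simp only [Finset.mem_filter, Finset.mem_product, Finset.mem_erase] at hpq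
    simp only [Finset.mem_insert, Finset.mem_singleton, Prod.mk.injEq, not_or, not_and]
    refine ⟨fun hh => absurd hh hpq.1.1.1, fun hh => absurd hh hpq.1.1.1,
      fun _ hh => absurd hh hpq.1.2.1, fun _ hh => absurd hh hpq.1.2.1⟩

theorem cardTri : stCardTri := by
  intro N V G h hcard
  induction hn : V.card using Nat.strong_induction_on generalizing V with
  | _ n ih =>
    rcases Nat.lt_or_ge n 3 with h3 | h3
    · -- two vertices
      have hn2 : V.card = 2 := by omega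
      obtain ⟨a, b, hab, rfl⟩ := Finset.card_eq_two.1 hn2
      have hadj : G.Adj a b := by
        apply bdAdj N _ G h a b
        refine ⟨by simp, by simp, hab, Or.inl ?_⟩
        intro v hv hc
        rw [Finset.mem_insert, Finset.mem_singleton] at hv
        rcases hv with rfl | rfl
        · exact Ccw_ne12 hc rfl
        · exact Ccw_ne23 hc rfl
      unfold eCount
      have : ((({a, b} : Finset (Fin N)) ×ˢ {a, b}).filter fun e => G.Adj e.1 e.2) =
          {(a, b), (b, a)} := by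
        ext ⟨p, q⟩
        simp only [Finset.mem_filter, Finset.mem_product, Finset.mem_insert,
          Finset.mem_singleton, Prod.mk.injEq]
        constructor
        · rintro ⟨⟨rfl | rfl, rfl | rfl⟩, hpq⟩
          · exact absurd hpq (G.loopless.irrefl _)
          · left; exact ⟨rfl, rfl⟩
          · right; exact ⟨rfl, rfl⟩
          · exact absurd hpq (G.loopless.irrefl _)
        · rintro (⟨rfl, rfl⟩ | ⟨rfl, rfl⟩)
          · exact ⟨⟨Or.inl rfl, Or.inr rfl⟩, hadj⟩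
          · exact ⟨⟨Or.inr rfl, Or.inl rfl⟩, hadj.symm⟩
      rw [this, Finset.card_pair (by
        intro hh; rw [Prod.mk.injEq] at hh; exact hab hh.1)]
      omega
    · obtain ⟨v, hv, x, hx, z, hz, hxz, hb1, hb2, -, hadj, htri, hnb⟩ := ear N V G h (by omega)
      have hc : (V.erase v).card = V.card - 1 := Finset.card_erase_of_mem hv
      have h1 := ih (V.erase v).card (by omega) (V.erase v) htri (by omega) rfl
      rw [eCount_ear hv hx hz hxz (bdAdj N V G h v x (Bd_symm hb1)) (bdAdj N V G h v z hb2) hnb,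
        h1]
      omega

/-- add one edge -/
def addE (G : SimpleGraph (Fin N)) (a b : Fin N) : SimpleGraph (Fin N) :=
  SimpleGraph.fromRel fun x y => G.Adj x y ∨ (x = a ∧ y = b)

theorem addE_adj {G : SimpleGraph (Fin N)} {a b : Fin N} (hab : a ≠ b) {x y : Fin N} :
    (addE G a b).Adj x y ↔ G.Adj x y ∨ (x = a ∧ y = b) ∨ (x = b ∧ y = a) := by
  unfold addE
  rw [SimpleGraph.fromRel_adj]
  constructor
  · rintro ⟨hne, (h | h) | (h | h)⟩
    · exact Or.inl h
    · exact Or.inr (Or.inl h)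
    · exact Or.inl h.symm
    · exact Or.inr (Or.inr ⟨h.2, h.1⟩)
  · rintro (h | ⟨rfl, rfl⟩ | ⟨rfl, rfl⟩)
    · exact ⟨h.ne, Or.inl (Or.inl h)⟩
    · exact ⟨hab, Or.inl (Or.inr ⟨rfl, rfl⟩)⟩
    · exact ⟨hab.symm, Or.inr (Or.inr ⟨rfl, rfl⟩)⟩

/-- the non-interleaving graphs on `V` -/
def NC (V : Finset (Fin N)) (G : SimpleGraph (Fin N)) : Prop :=
  ∀ a ∈ V, ∀ b ∈ V, ∀ c ∈ V, ∀ d ∈ V, G.Adj a b → G.Adj c d → ¬ Crs a b c d

theorem NC_addE {V : Finset (Fin N)} {G : SimpleGraph (Fin N)} (h : NC V G) {a b : Fin N}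
    (hab : a ≠ b) (hn : ∀ c ∈ V, ∀ d ∈ V, G.Adj c d → ¬ Crs a b c d) : NC V (addE G a b) := by
  have self1 : ¬ Crs a b a b := fun hh => (Crs_ne hh).2.1 rfl
  intro x hx y hy c hc d hd h1 h2
  rw [addE_adj hab] at h1 h2
  rcases h1 with h1 | ⟨rfl, rfl⟩ | ⟨rfl, rfl⟩
  · rcases h2 with h2 | ⟨rfl, rfl⟩ | ⟨rfl, rfl⟩
    · exact h x hx y hy c hc d hd h1 h2
    · rw [Crs_symm_iff]; exact hn x hx y hy h1
    · rw [Crs_symm_iff, Crs_swap12_iff]; exact hn x hx y hy h1
  · rcases h2 with h2 | ⟨rfl, rfl⟩ | ⟨rfl, rfl⟩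
    · exact hn c hc d hd h2
    · exact self1
    · rw [Crs_swap34_iff]; exact self1
  · rcases h2 with h2 | ⟨rfl, rfl⟩ | ⟨rfl, rfl⟩
    · rw [Crs_swap12_iff]; exact hn c hc d hd h2
    · rw [Crs_swap12_iff]; exact self1
    · rw [Crs_swap12_iff, Crs_swap34_iff]; exact self1

theorem ext : stExt := by
  intro N V G h
  obtain ⟨G', ⟨hG, hnc⟩, hmax⟩ := (Set.toFinite {G' : SimpleGraph (Fin N) | G ≤ G' ∧ NC V G'}).exists_maximal
    ⟨G, le_refl _, h⟩
  refine ⟨G', ⟨hnc, ?_⟩, hG⟩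
  intro a ha b hb hab hnadj
  by_contra hcon
  push Not at hcon
  have h1 : NC V (addE G' a b) := NC_addE hnc hab hcon
  have h2 : G' ≤ addE G' a b := by
    intro x y hxy
    rw [addE_adj hab]
    exact Or.inl hxy
  have h3 := hmax ⟨hG.trans h2, h1⟩ h2
  exact hnadj (h3 (by rw [addE_adj hab]; exact Or.inr (Or.inl ⟨rfl, rfl⟩)))

end Pool.Agent.Helper13.GP
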