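import Pool.Agent.Helper18.GP.Cyc

/-!
# Calculus of the cyclic order

`Ccw_iff` and `Ccw_base` turn `Ccw` into linear inequalities (values of labels, or cyclic
distances from any base point); `Crs_iff`, `Crs_base` the same for interleaving pairs.
-/

namespace Pool.Agent.Helper13.GP

open Relation Classical Pool.Agent.Helper18.GP

variable {N : ℕ}

/-- cyclic order by values -/
theorem Ccw_iff {a b c : Fin N} : Ccw a b c ↔
    (a.val < b.val ∧ b.val < c.val) ∨ (b.val < c.val ∧ c.val < a.val) ∨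
      (c.val < a.val ∧ a.val < b.val) := by
  have ha := a.isLt; have hb := b.isLt; have hc := c.isLt
  unfold Ccw cyc
  split_ifs <;> omega

/-- cyclic order by the distances from a base point -/
theorem Ccw_base (o : Fin N) {a b c : Fin N} : Ccw a b c ↔
    (cyc o a < cyc o b ∧ cyc o b < cyc o c) ∨ (cyc o b < cyc o c ∧ cyc o c < cyc o a) ∨
      (cyc o c < cyc o a ∧ cyc o a < cyc o b) := by
  have ha := cyc_lt o a; have hb := cyc_lt o b; have hc := cyc_lt o c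
  unfold Ccw
  rw [cyc_change o a b, cyc_change o a c]
  split_ifs <;> omega

theorem Ccw_rot {a b c : Fin N} (h : Ccw a b c) : Ccw b c a := by
  rw [Ccw_iff] at *; omega

theorem Ccw_rot' {a b c : Fin N} (h : Ccw a b c) : Ccw c a b := by
  rw [Ccw_iff] at *; omega

theorem Ccw_ne12 {a b c : Fin N} (h : Ccw a b c) : a ≠ b := by
  rintro rfl; rw [Ccw_iff] at h; omega

theorem Ccw_ne23 {a b c : Fin N} (h : Ccw a b c) : b ≠ c := by
  rintro rfl; rw [Ccw_iff] at h; omega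

theorem Ccw_ne13 {a b c : Fin N} (h : Ccw a b c) : a ≠ c := by
  rintro rfl; rw [Ccw_iff] at h; omega

theorem Ccw_asymm {a b c : Fin N} (h : Ccw a b c) : ¬ Ccw a c b := by
  rw [Ccw_iff] at *; omega

theorem Ccw_total {a b c : Fin N} (h1 : a ≠ b) (h2 : b ≠ c) (h3 : a ≠ c) :
    Ccw a b c ∨ Ccw a c b := by
  rw [Ccw_iff, Ccw_iff]
  have h1 : a.val ≠ b.val := fun h => h1 (Fin.ext h)
  have h2 : b.val ≠ c.val := fun h => h2 (Fin.ext h)
  have h3 : a.val ≠ c.val := fun h => h3 (Fin.ext h)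
  omega

/-- `a < b < c` and `a < c < d` give `a < b < d` -/
theorem Ccw_trans {a b c d : Fin N} (h1 : Ccw a b c) (h2 : Ccw a c d) : Ccw a b d := by
  rw [Ccw_iff] at *; omega

/-- `a < b < c` and `a < c < d` give `b < c < d` -/
theorem Ccw_trans' {a b c d : Fin N} (h1 : Ccw a b c) (h2 : Ccw a c d) : Ccw b c d := by
  rw [Ccw_iff] at *; omega

/-- interleaving by values -/
theorem Crs_iff {a b c d : Fin N} : Crs a b c d ↔
    (((a.val < c.val ∧ c.val < b.val) ∨ (c.val < b.val ∧ b.val < a.val) ∨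
      (b.val < a.val ∧ a.val < c.val)) ∧
    ((a.val < b.val ∧ b.val < d.val) ∨ (b.val < d.val ∧ d.val < a.val) ∨
      (d.val < a.val ∧ a.val < b.val))) ∨
    (((a.val < d.val ∧ d.val < b.val) ∨ (d.val < b.val ∧ b.val < a.val) ∨
      (b.val < a.val ∧ a.val < d.val)) ∧
    ((a.val < b.val ∧ b.val < c.val) ∨ (b.val < c.val ∧ c.val < a.val) ∨
      (c.val < a.val ∧ a.val < b.val))) := by
  unfold Crs
  rw [Ccw_iff, Ccw_iff, Ccw_iff, Ccw_iff]

/-- interleaving by the distances from a base point -/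
theorem Crs_base (o : Fin N) {a b c d : Fin N} : Crs a b c d ↔
    (((cyc o a < cyc o c ∧ cyc o c < cyc o b) ∨ (cyc o c < cyc o b ∧ cyc o b < cyc o a) ∨
      (cyc o b < cyc o a ∧ cyc o a < cyc o c)) ∧
    ((cyc o a < cyc o b ∧ cyc o b < cyc o d) ∨ (cyc o b < cyc o d ∧ cyc o d < cyc o a) ∨
      (cyc o d < cyc o a ∧ cyc o a < cyc o b))) ∨
    (((cyc o a < cyc o d ∧ cyc o d < cyc o b) ∨ (cyc o d < cyc o b ∧ cyc o b < cyc o a) ∨
      (cyc o b < cyc o a ∧ cyc o a < cyc o d)) ∧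
    ((cyc o a < cyc o b ∧ cyc o b < cyc o c) ∨ (cyc o b < cyc o c ∧ cyc o c < cyc o a) ∨
      (cyc o c < cyc o a ∧ cyc o a < cyc o b))) := by
  unfold Crs
  rw [Ccw_base o, Ccw_base o, Ccw_base o, Ccw_base o]

/-- pairs interleave: the four labels in cyclic order -/
theorem Crs_of_Ccw {a b c d : Fin N} (h1 : Ccw a c b) (h2 : Ccw a b d) : Crs a b c d :=
  Or.inl ⟨h1, h2⟩

theorem Crs_swap12 {a b c d : Fin N} (h : Crs a b c d) : Crs b a c d := by
  rw [Crs_iff] at *; omega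

theorem Crs_swap34 {a b c d : Fin N} (h : Crs a b c d) : Crs a b d c := Or.symm h

theorem Crs_symm {a b c d : Fin N} (h : Crs a b c d) : Crs c d a b := by
  rw [Crs_iff] at *; omega

theorem Crs_swap12_iff {a b c d : Fin N} : Crs b a c d ↔ Crs a b c d :=
  ⟨Crs_swap12, Crs_swap12⟩

theorem Crs_swap34_iff {a b c d : Fin N} : Crs a b d c ↔ Crs a b c d :=
  ⟨Crs_swap34, Crs_swap34⟩

theorem Crs_symm_iff {a b c d : Fin N} : Crs c d a b ↔ Crs a b c d :=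
  ⟨Crs_symm, Crs_symm⟩

/-- the labels of two interleaving pairs are pairwise distinct -/
theorem Crs_ne {a b c d : Fin N} (h : Crs a b c d) :
    a ≠ b ∧ a ≠ c ∧ a ≠ d ∧ b ≠ c ∧ b ≠ d ∧ c ≠ d := by
  rw [Crs_iff] at h
  refine ⟨?_, ?_, ?_, ?_, ?_, ?_⟩ <;> (rintro rfl; omega)

/-- a pair with both ends in `[a,b]` does not interleave a pair with both ends in `[b,a]` -/
theorem not_Crs_Arc {V : Finset (Fin N)} {a b x y c d : Fin N} (hab : b ≠ a)
    (hx : x ∈ Arc V a b) (hy : y ∈ Arc V a b) (hc : c ∈ Arc V b a) (hd : d ∈ Arc V b a) :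
    ¬ Crs x y c d := by
  intro h
  rw [mem_Arc] at hx hy
  rw [mem_Arc' hab] at hc hd
  have h0 := cyc_self a
  have hb := cyc_pos.2 hab
  rw [Crs_base a] at h
  rcases hc.2 with rfl | hc2 <;> rcases hd.2 with rfl | hd2 <;> omega

/-- a pair that does not interleave `a`, `b` lies in one of the two arcs -/
theorem Arc_or_of_not_Crs {V : Finset (Fin N)} {a b c d : Fin N} (hab : b ≠ a) (hc : c ∈ V)
    (hd : d ∈ V) (h : ¬ Crs a b c d) :
    (c ∈ Arc V a b ∧ d ∈ Arc V a b) ∨ (c ∈ Arc V b a ∧ d ∈ Arc V b a) := by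
  rw [mem_Arc, mem_Arc, mem_Arc' hab, mem_Arc' hab]
  rw [Crs_base a] at h
  have h0 := cyc_self a
  have hb := cyc_pos.2 hab
  have hc0 : c = a ∨ 0 < cyc a c := by
    by_cases hca : c = a
    · exact Or.inl hca
    · exact Or.inr (cyc_pos.2 hca)
  have hd0 : d = a ∨ 0 < cyc a d := by
    by_cases hda : d = a
    · exact Or.inl hda
    · exact Or.inr (cyc_pos.2 hda)
  rcases hc0 with rfl | hc0 <;> rcases hd0 with rfl | hd0
  · left; simp only [cyc_self]; exact ⟨⟨hc, by omega⟩, ⟨hd, by omega⟩⟩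
  · rcases Nat.lt_or_ge (cyc c d) (cyc c b) with h1 | h1
    · left; exact ⟨⟨hc, by rw [cyc_self]; omega⟩, ⟨hd, h1.le⟩⟩
    · right; exact ⟨⟨hc, Or.inl rfl⟩, ⟨hd, Or.inr h1⟩⟩
  · rcases Nat.lt_or_ge (cyc d c) (cyc d b) with h1 | h1
    · left; exact ⟨⟨hc, h1.le⟩, ⟨hd, by rw [cyc_self]; omega⟩⟩
    · right; exact ⟨⟨hc, Or.inr h1⟩, ⟨hd, Or.inl rfl⟩⟩
  · rcases Nat.lt_or_ge (cyc a c) (cyc a b) with h1 | h1
    · left; exact ⟨⟨hc, h1.le⟩, ⟨hd, by omega⟩⟩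
    · rcases Nat.lt_or_ge (cyc a b) (cyc a c) with h2 | h2
      · right; exact ⟨⟨hc, Or.inr h1⟩, ⟨hd, Or.inr (by omega)⟩⟩
      · rcases Nat.lt_or_ge (cyc a d) (cyc a b) with h3 | h3
        · left; exact ⟨⟨hc, h2⟩, ⟨hd, h3.le⟩⟩
        · right; exact ⟨⟨hc, Or.inr h1⟩, ⟨hd, Or.inr h3⟩⟩

/-- the next vertex after `a` in `V` -/
theorem exists_next {V : Finset (Fin N)} {a : Fin N} (h : ∃ v ∈ V, v ≠ a) :
    ∃ v ∈ V, v ≠ a ∧ ∀ u ∈ V, u ≠ a → cyc a v ≤ cyc a u := by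
  obtain ⟨v, hv, hmin⟩ := Finset.exists_min_image (V.erase a) (fun u => cyc a u)
    (by obtain ⟨v, hv, hva⟩ := h; exact ⟨v, Finset.mem_erase.2 ⟨hva, hv⟩⟩)
  rw [Finset.mem_erase] at hv
  exact ⟨v, hv.2, hv.1, fun u hu hua => hmin u (Finset.mem_erase.2 ⟨hua, hu⟩)⟩

/-- the last vertex before `a` in `V` -/
theorem exists_prev {V : Finset (Fin N)} {a : Fin N} (h : ∃ v ∈ V, v ≠ a) :
    ∃ v ∈ V, v ≠ a ∧ ∀ u ∈ V, cyc a u ≤ cyc a v := by
  obtain ⟨v, hv, hmax⟩ := Finset.exists_max_image (V.erase a) (fun u => cyc a u)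
    (by obtain ⟨v, hv, hva⟩ := h; exact ⟨v, Finset.mem_erase.2 ⟨hva, hv⟩⟩)
  rw [Finset.mem_erase] at hv
  refine ⟨v, hv.2, hv.1, fun u hu => ?_⟩
  by_cases hua : u = a
  · rw [hua, cyc_self]; omega
  · exact hmax u (Finset.mem_erase.2 ⟨hua, hu⟩)

theorem Bd_next {V : Finset (Fin N)} {a v : Fin N} (ha : a ∈ V) (hv : v ∈ V) (hva : v ≠ a)
    (h : ∀ u ∈ V, u ≠ a → cyc a v ≤ cyc a u) : Bd V a v := by
  refine ⟨ha, hv, hva.symm, Or.inl fun u hu hc => ?_⟩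
  have := h u hu (cyc_pos.1 hc.1)
  have := hc.2
  omega

theorem Bd_prev {V : Finset (Fin N)} {a v : Fin N} (ha : a ∈ V) (hv : v ∈ V) (hva : v ≠ a)
    (h : ∀ u ∈ V, cyc a u ≤ cyc a v) : Bd V a v := by
  refine ⟨ha, hv, hva.symm, Or.inr fun u hu hc => ?_⟩
  rw [Ccw_base a] at hc
  have := h u hu
  have := cyc_self a
  omega

theorem Bd_symm {V : Finset (Fin N)} {a b : Fin N} (h : Bd V a b) : Bd V b a :=
  ⟨h.2.1, h.1, h.2.2.1.symm, h.2.2.2.symm⟩

theorem Bd_sub {V V' : Finset (Fin N)} {a b : Fin N} (h : Bd V a b) (hs : V' ⊆ V) (ha : a ∈ V')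
    (hb : b ∈ V') : Bd V' a b :=
  ⟨ha, hb, h.2.2.1, h.2.2.2.imp (fun h v hv => h v (hs hv)) (fun h v hv => h v (hs hv))⟩

/-- a side interleaves no pair of vertices -/
theorem Bd_not_Crs {V : Finset (Fin N)} {a b c d : Fin N} (h : Bd V a b) (hc : c ∈ V)
    (hd : d ∈ V) : ¬ Crs a b c d := by
  intro hx
  rcases h.2.2.2 with h1 | h1
  · have h2 := h1 c hc; have h3 := h1 d hd
    rw [Crs_iff] at hx; rw [Ccw_iff] at h2 h3; omega
  · have h2 := h1 c hc; have h3 := h1 d hd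
    rw [Crs_iff] at hx; rw [Ccw_iff] at h2 h3; omega

end Pool.Agent.Helper13.GP
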